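import Pool.Agent.helper79.SX.Spec

set_option autoImplicit false

open Finset ArithmeticFunction

namespace Pool.Agent.SX

theorem VCH (hSAD : SAD_stmt) : VCH_stmt := by
  intro c h c' h' E h28 hh hE hchk hc
  obtain ⟨-, -, hV, -, hpos, -⟩ := hSAD
  obtain ⟨hx, hy, -⟩ := hpos h h'
  rw [hV h h' hh]
  have h1 := hE 0 (Nat.zero_le _)
  have h2 : ek (Bl h h') 0 = 1 := by
    unfold ek
    exact Pool.Agent.Lib.BrunHooley.es_zero _ _
  rw [h2] at h1
  have hn : c' * dig E 0 * h ^ 2 ≤ c * 17592186044416 * h' ^ 2 := by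
    unfold chkV at hchk
    exact Nat.le_of_ble_eq_true hchk
  have hr : (c' : ℝ) * (dig E 0 : ℝ) * (h : ℝ) ^ 2 ≤ (c : ℝ) * 17592186044416 * (h' : ℝ) ^ 2 := by
    exact_mod_cast hn
  generalize V (Pr h) = x at *
  generalize V (Bl h h') = y at *
  generalize (dig E 0 : ℝ) = d at *
  have e44 : (2 : ℝ) ^ 44 = 17592186044416 := by norm_num
  rw [e44] at h1
  have h3 : (17592186044416 : ℝ) ≤ d * y := by
    rw [div_le_div_iff₀ hy (by norm_num)] at h1
    linarith
  have hd : 0 < d := by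
    by_contra hd
    push Not at hd
    nlinarith
  have hh0 : (0 : ℝ) < (h : ℝ) ^ 2 := by
    have : (0 : ℝ) < h := by exact_mod_cast (by omega : 0 < h)
    positivity
  have hh' : (0 : ℝ) ≤ (h' : ℝ) ^ 2 := by positivity
  have hc0 : (0 : ℝ) ≤ c := Nat.cast_nonneg c
  have key : (c' : ℝ) / 1000 * (d * (h : ℝ) ^ 2) ≤ x * y * (h' : ℝ) ^ 2 * (d * (h : ℝ) ^ 2) := by
    calc (c' : ℝ) / 1000 * (d * (h : ℝ) ^ 2) = (c' * d * (h : ℝ) ^ 2) / 1000 := by ring
      _ ≤ (c * 17592186044416 * (h' : ℝ) ^ 2) / 1000 := by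
          exact div_le_div_of_nonneg_right hr (by norm_num)
      _ = ((c : ℝ) / 1000) * (17592186044416 * (h' : ℝ) ^ 2) := by ring
      _ ≤ ((c : ℝ) / 1000) * ((d * y) * (h' : ℝ) ^ 2) := by
          exact mul_le_mul_of_nonneg_left (mul_le_mul_of_nonneg_right h3 hh') (by positivity)
      _ ≤ (x * (h : ℝ) ^ 2) * ((d * y) * (h' : ℝ) ^ 2) := by
          exact mul_le_mul_of_nonneg_right hc (by positivity)
      _ = x * y * (h' : ℝ) ^ 2 * (d * (h : ℝ) ^ 2) := by ring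
  exact le_of_mul_le_mul_right key (by positivity)

end Pool.Agent.SX
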